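import Pool.Agent.TH942.Lead
import Pool.Agent.Results.MP_92892c_nt.RotatedLeadingTerm

/-!
# The leading-term formula without rank, regulator and torsion

Let `C : y² = x³ + a x + b` be an elliptic curve over `ℚ`, `a, b ∈ ℤ`, with `L`-function `F` (Euler factors
at the primes dividing `2Δ` removed). Let `h(P) = log max (|m|, n)` for a rational point with `x`-coordinate
`m/n`, `h(O) = 0`, and let `Z(s) = ∑_P e^{-s h(P)}` be the sum over all rational points (`s > 0`). Let `Reg`
be the classical regulator (for the pairing `⟨P, Q⟩ = (q(P + Q) - q(P) - q(Q))/2`,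
`q(P) = lim h(2^k P)/4^k`), `T` the number of rational torsion points and `r` the rank. It is shown that for
every real `A > 0` the following are equivalent:

* `ord_{s=1} F = r` and `F^{(r)}(1)/r! = A · Reg / T²`;
* `Z(πs)² F(1 + s) → A` as `s → 0+`;
* `exp (∑*_c(X)) / N(X)² → e^{-rΛ(c)} / (V_r² A)` as `X → ∞`, for some or for all `c > π/2`, where
  `N(X)` is the number of rational points with `h(P) ≤ log X`, `V_r` is the volume of the unit ball of
  `ℝ^r`, and `∑*_c(X)` is the rotated sum over the primes (of the `log ((N_p + 1)/p)`, with second order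
  terms) of `RotatedLeadingTerm`.

The conjecture of Birch and Swinnerton-Dyer (rank form and leading-term formula) is the first statement for
`A = Ω⁺ · #Ш · Tam · ∏_{p | 2Δ} E_p(1)`, `E_p` the removed Euler factors. So it says that
`lim_{s → 0+} Z(πs)² F(1 + s)` is this number: rank, regulator and torsion are absorbed by the Dirichlet series
of the naive heights of the rational points, the two numbers `0, ∞` being excluded at the same time. The
third form contains no `L`-function but the numbers of points modulo `p` only.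

Proof. Mordell, Weil, Néron: `#{h(P) ≤ B} ~ T V_r B^{r/2} / √Reg` (proved in the imported files for every
number field), an Abelian theorem for `Z`, and the asymptotic formula of `RotatedLeadingTerm`.
-/

set_option autoImplicit false

namespace Pool.Agent.Results.MP_92892c_nt.HeightZeta

open Pool.Agent.W263.BSD Pool.Agent.W187.UR Pool.Agent.W187.S2 Filter Topology

/-- The group of rational points of `y² = x³ + a x + b`. -/
abbrev Pts (a b : ℤ) : Type := TH942.SPt (a : ℚ) (b : ℚ)

/-- The rank. -/
noncomputable def rank (a b : ℤ) : ℕ := Module.finrank ℤ (Pts a b)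

/-- The height `log max (|m|, n)` of the `x`-coordinate `m / n` (`0` at infinity). -/
noncomputable def ht {a b : ℤ} : Pts a b → ℝ
  | .zero => 0
  | .some x _ _ => Real.log (max x.num.natAbs x.den : ℕ)

/-- The canonical quadratic function `q(P) = lim h(2^k P) / 4^k` (twice the canonical height). -/
noncomputable def canHt {a b : ℤ} (P : Pts a b) : ℝ :=
  limUnder atTop (fun k : ℕ => ht ((2 ^ k : ℕ) • P) / 4 ^ k)

/-- `P_1, …, P_r` is a basis of the group of rational points modulo torsion: every point is, in a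
unique way, an integral combination of the `P_i` plus a point of finite order. -/
def IsMWBasis {a b : ℤ} {r : ℕ} (g : Fin r → Pts a b) : Prop :=
  ∀ P : Pts a b, ∃! n : Fin r → ℤ, IsOfFinAddOrder (P - ∑ i, n i • g i)

/-- The regulator: the determinant of the height pairing `(q(P + Q) - q(P) - q(Q)) / 2`. -/
noncomputable def regulator {a b : ℤ} {r : ℕ} (g : Fin r → Pts a b) : ℝ :=
  Matrix.det (Matrix.of fun i j => (canHt (g i + g j) - canHt (g i) - canHt (g j)) / 2)

/-- The number of rational torsion points. -/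
noncomputable def tors (a b : ℤ) : ℕ := Nat.card {t : Pts a b // IsOfFinAddOrder t}

/-- `Z(s)`: the sum over all rational points of `e^{-s h(P)}`. -/
noncomputable def heightZeta (a b : ℤ) (s : ℝ) : ℝ := ∑' P : Pts a b, Real.exp (-(s * ht P))

/-- `N(X)`: the number of rational points with `h(P) ≤ log X`. -/
noncomputable def pointsUpTo (a b : ℤ) (X : ℝ) : ℕ := Nat.card {P : Pts a b // ht P ≤ Real.log X}

/-- The volume of the unit ball of `ℝ^r`. -/
noncomputable def ballVol (r : ℕ) : ℝ := √Real.pi ^ r / Real.Gamma (r / 2 + 1)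

theorem ht_eq {a b : ℤ} (P : Pts a b) : ht P = TH942.sht (K := ℚ) (a := (a : ℚ)) (b := (b : ℚ)) P := by
  cases P with
  | zero => exact TH942.sht_zero.symm
  | some x y h => exact (TH942.sht_some h).symm

/-- **The leading-term formula without rank, regulator and torsion.** -/
theorem result (a b : ℤ) (hΔ : 4 * a ^ 3 + 27 * b ^ 2 ≠ 0) (F : ℂ → ℂ) (hF : IsLSeries a b F) :
    (∀ s : ℝ, 0 < s → Summable fun P : Pts a b => Real.exp (-(s * ht P))) ∧
    (∃ g : Fin (rank a b) → Pts a b, IsMWBasis g) ∧
    ∀ g : Fin (rank a b) → Pts a b, IsMWBasis g → 0 < regulator g ∧ ∀ A : ℝ, 0 < A →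
      List.TFAE [
        analyticOrderAt F 1 = rank a b ∧
          iteratedDeriv (rank a b) F 1 / (rank a b).factorial =
            ((A * regulator g / tors a b ^ 2 : ℝ) : ℂ),
        Tendsto (fun s : ℝ => (heightZeta a b (Real.pi * s) : ℂ) ^ 2 * F (1 + s)) (𝓝[>] 0)
          (𝓝 (A : ℂ)),
        ∃ c : ℝ, Real.pi / 2 < c ∧
          Tendsto (fun X : ℝ => Complex.exp (pStar a b c X) / (pointsUpTo a b X : ℂ) ^ 2) atTop
            (𝓝 (Complex.exp (-(rank a b * Lam c)) / (ballVol (rank a b) ^ 2 * A : ℝ))),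
        ∀ c : ℝ, Real.pi / 2 < c →
          Tendsto (fun X : ℝ => Complex.exp (pStar a b c X) / (pointsUpTo a b X : ℂ) ^ 2) atTop
            (𝓝 (Complex.exp (-(rank a b * Lam c)) / (ballVol (rank a b) ^ 2 * A : ℝ)))] := by
  have hD : 4 * (a : ℚ) ^ 3 + 27 * (b : ℚ) ^ 2 ≠ 0 := by exact_mod_cast hΔ
  obtain ⟨q, C, hq0, hq, hqh, hqlim, hcount⟩ := TH942.neron hD
  have hfin : ∀ B : ℝ, {P : Pts a b | ht P ≤ B}.Finite := by
    intro B
    simp only [ht_eq]
    exact TH942.sfinite_ht B
  have h0 : ∀ P : Pts a b, 0 ≤ ht P := fun P => by rw [ht_eq]; exact TH942.sht_nonneg P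
  have hcan : ∀ P : Pts a b, canHt P = q P := by
    intro P
    unfold canHt
    apply Tendsto.limUnder_eq
    have := hqlim P
    simpa only [← ht_eq] using this
  have hcbl : Countable (Pts a b) := by
    have h1 : (Set.univ : Set (Pts a b)) = ⋃ n : ℕ, {P | ht P ≤ n} := by
      ext P
      simp only [Set.mem_univ, Set.mem_iUnion, Set.mem_ofPred_eq, true_iff]
      exact exists_nat_ge (ht P)
    rw [← Set.countable_univ_iff, h1]
    exact Set.countable_iUnion fun n => (hfin n).countable
  set r := rank a b with hr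
  -- a basis
  obtain ⟨r', g', hg'⟩ := TH942.exists_basis (TH942.sfg hD)
  have hr' : r = r' := by
    have := TH942.card_basis hg'
    rw [Fintype.card_fin] at this
    exact this
  have hbasis : ∃ g : Fin r → Pts a b, IsMWBasis g := by
    rw [hr']
    exact ⟨g', hg'⟩
  -- the main limit
  have hmain : ∀ g : Fin r → Pts a b, IsMWBasis g → 0 < regulator g ∧
      Tendsto (fun B : ℝ => TH942.cnt (ht : Pts a b → ℝ) B / B ^ ((r : ℝ) / 2)) atTop
        (𝓝 (tors a b * ballVol r / √(regulator g))) := by
    intro g hg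
    obtain ⟨h1, h2⟩ := hcount (Fin r) g hg
    have h3 : regulator g = (TH942.gram q g).det := by
      unfold regulator TH942.gram
      simp only [hcan]
    rw [h3]
    refine ⟨h1, ?_⟩
    rw [Fintype.card_fin] at h2
    refine h2.congr fun B => ?_
    unfold TH942.cnt
    simp only [ht_eq]
  obtain ⟨g₀, hg₀⟩ := hbasis
  have hsum := (TH942.zeta_main h0 hfin (by positivity) (hmain g₀ hg₀).2).1
  refine ⟨hsum, ⟨g₀, hg₀⟩, fun g hg => ?_⟩
  obtain ⟨hreg, hlim⟩ := hmain g hg
  refine ⟨hreg, fun A hA => ?_⟩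
  have hT0 : 0 < tors a b := by
    have h1 : Finite {t : Pts a b // IsOfFinAddOrder t} := by
      have h2 : {t : Pts a b | IsOfFinAddOrder t} ⊆ {P | ht P ≤ C} := by
        intro t ht'
        have h9 := TH942.q_comb q hq g t ht' 0
        simp only [Pi.zero_apply, zero_smul, Finset.sum_const_zero, zero_add, Int.cast_zero,
          zero_mul] at h9
        have h10 := abs_le.1 (hqh t)
        simp only [Set.mem_ofPred_eq, ht_eq]
        linarith
      exact ((hfin C).subset h2).to_subtype
    have h2 : Nonempty {t : Pts a b // IsOfFinAddOrder t} := ⟨⟨0, IsOfFinAddOrder.zero⟩⟩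
    exact Nat.card_pos
  have hT : (0 : ℝ) < tors a b := by exact_mod_cast hT0
  have hV : 0 < ballVol r := TH942.ballVol_pos r
  have hGam : 0 < Real.Gamma ((r : ℝ) / 2 + 1) := Real.Gamma_pos_of_pos (by positivity)
  have hpi := Real.pi_pos
  have hsr : 0 < √(regulator g) := Real.sqrt_pos.2 hreg
  have hsr2 : √(regulator g) ^ 2 = regulator g := Real.sq_sqrt hreg.le
  set κ : ℝ := tors a b * ballVol r / √(regulator g) with hκ
  have hκ0 : 0 < κ := by positivity
  have hκ2 : κ ^ 2 = tors a b ^ 2 * ballVol r ^ 2 / regulator g := by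
    rw [hκ, div_pow, mul_pow, hsr2]
  -- zeta
  have hZ : Tendsto (fun s : ℝ => (heightZeta a b (Real.pi * s) : ℝ) ^ 2 * s ^ r) (𝓝[>] 0)
      (𝓝 (tors a b ^ 2 / regulator g)) := by
    have h1 := (TH942.zeta_main h0 hfin (by positivity) hlim).2
    have h2 : Tendsto (fun s : ℝ => Real.pi * s) (𝓝[>] 0) (𝓝[>] 0) := by
      rw [tendsto_nhdsWithin_iff]
      constructor
      · have h3 : Tendsto (fun s : ℝ => Real.pi * s) (𝓝 0) (𝓝 (Real.pi * 0)) :=
          (continuous_const.mul continuous_id).tendsto 0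
        rw [mul_zero] at h3
        exact h3.mono_left nhdsWithin_le_nhds
      · filter_upwards [self_mem_nhdsWithin] with s hs
        have : (0 : ℝ) < s := hs
        show (0 : ℝ) < Real.pi * s
        positivity
    have h3 := ((h1.comp h2).pow 2).mul_const ((Real.pi ^ r)⁻¹)
    have h4 : (κ * Real.Gamma ((r : ℝ) / 2 + 1)) ^ 2 * (Real.pi ^ r)⁻¹ =
        tors a b ^ 2 / regulator g := by
      rw [mul_pow, hκ2]
      unfold ballVol
      have h5 : (√Real.pi ^ r) ^ 2 = Real.pi ^ r := by
        rw [← pow_mul, mul_comm, pow_mul, Real.sq_sqrt hpi.le]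
      rw [div_pow, h5]
      have : (0 : ℝ) < Real.pi ^ r := by positivity
      field_simp
    rw [h4] at h3
    refine h3.congr' ?_
    filter_upwards [self_mem_nhdsWithin] with s hs
    have hs0 : (0 : ℝ) < s := hs
    simp only [Function.comp_apply]
    have h6 : ((Real.pi * s) ^ ((r : ℝ) / 2)) ^ 2 = Real.pi ^ r * s ^ r := by
      rw [← Real.rpow_natCast, ← Real.rpow_mul (by positivity)]
      have : (r : ℝ) / 2 * (2 : ℕ) = r := by push_cast; ring
      rw [this, Real.rpow_natCast, mul_pow]
    have h7 : (0 : ℝ) < Real.pi ^ r := by positivity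
    rw [mul_pow, h6]
    unfold heightZeta
    field_simp
  have hZc : Tendsto (fun s : ℝ => (heightZeta a b (Real.pi * s) : ℂ) ^ 2 * (s : ℂ) ^ r) (𝓝[>] 0)
      (𝓝 ((tors a b ^ 2 / regulator g : ℝ) : ℂ)) := by
    have := (Complex.continuous_ofReal.tendsto _).comp hZ
    refine this.congr fun s => ?_
    simp
  have hZlim0 : ((tors a b ^ 2 / regulator g : ℝ) : ℂ) ≠ 0 := by
    have : (0 : ℝ) < tors a b ^ 2 / regulator g := by positivity
    exact_mod_cast this.ne'
  -- points
  have hN : Tendsto (fun X : ℝ => (pointsUpTo a b X : ℝ) ^ 2 / Real.log X ^ r) atTop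
      (𝓝 (κ ^ 2)) := by
    have h1 := (hlim.comp Real.tendsto_log_atTop).pow 2
    refine h1.congr' ?_
    filter_upwards [eventually_gt_atTop 1] with X hX
    have hl : 0 < Real.log X := Real.log_pos hX
    simp only [Function.comp_apply]
    have h6 : (Real.log X ^ ((r : ℝ) / 2)) ^ 2 = Real.log X ^ r := by
      rw [← Real.rpow_natCast, ← Real.rpow_mul hl.le]
      have : (r : ℝ) / 2 * (2 : ℕ) = r := by push_cast; ring
      rw [this, Real.rpow_natCast]
    rw [div_pow, h6]
    rfl
  have hNc : Tendsto (fun X : ℝ => (pointsUpTo a b X : ℂ) ^ 2 / (Real.log X : ℂ) ^ r) atTop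
      (𝓝 ((κ ^ 2 : ℝ) : ℂ)) := by
    have := (Complex.continuous_ofReal.tendsto _).comp hN
    refine this.congr fun s => ?_
    simp
  have hκc : ((κ ^ 2 : ℝ) : ℂ) ≠ 0 := by
    have : 0 < κ ^ 2 := by positivity
    exact_mod_cast this.ne'
  have hNpos : ∀ᶠ X : ℝ in atTop, (pointsUpTo a b X : ℂ) ≠ 0 := by
    filter_upwards [eventually_ge_atTop 1] with X hX
    have h1 : Finite {P : Pts a b // ht P ≤ Real.log X} := (hfin _).to_subtype
    have h2 : Nonempty {P : Pts a b // ht P ≤ Real.log X} := ⟨⟨0, Real.log_nonneg hX⟩⟩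
    have h3 : 0 < pointsUpTo a b X := Nat.card_pos
    exact_mod_cast h3.ne'
  -- the coefficient
  set B : ℂ := ((A * regulator g / tors a b ^ 2 : ℝ) : ℂ) with hB
  have hBr : 0 < A * regulator g / tors a b ^ 2 := by positivity
  have hB0 : B ≠ 0 := by
    rw [hB]
    exact_mod_cast hBr.ne'
  obtain ⟨m, hm⟩ := Pool.Agent.W189.ML.order_finite_all hF 1
  obtain ⟨hlead0, hlead⟩ := TH942.lead_lim hF.1 hm
  obtain ⟨-, r₁, hr₁, -, hstar⟩ := Pool.Agent.Results.MP_92892c_nt.RotatedLeadingTerm.result a b hΔ F hF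
  have hiff : ∀ c : ℝ, Real.pi / 2 < c →
      ((analyticOrderAt F 1 = r ∧ iteratedDeriv r F 1 / r.factorial = B) ↔
        Tendsto (fun X : ℝ => Complex.exp (pStar a b c X) / (pointsUpTo a b X : ℂ) ^ 2) atTop
          (𝓝 (Complex.exp (-(r * Lam c)) / (ballVol r ^ 2 * A : ℝ)))) := by
    intro c hc
    rw [((hstar c hc).2.2 r B hB0).1]
    have hval : Complex.exp (-(r * Lam c)) / (ballVol r ^ 2 * A : ℝ) =
        Complex.exp (-(r * Lam c)) / B / ((κ ^ 2 : ℝ) : ℂ) := by
      rw [div_div]
      congr 1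
      rw [hB, ← Complex.ofReal_mul, hκ2]
      congr 1
      field_simp
    rw [hval]
    constructor
    · intro h
      refine (h.div hNc hκc).congr' ?_
      filter_upwards [hNpos, eventually_gt_atTop 1] with X h1 h2
      have hl : (Real.log X : ℂ) ≠ 0 := by exact_mod_cast (Real.log_pos h2).ne'
      simp only [Pi.div_apply]
      field_simp
    · intro h
      have h1 := h.mul hNc
      rw [div_mul_cancel₀ _ hκc] at h1
      refine h1.congr' ?_
      filter_upwards [hNpos, eventually_gt_atTop 1] with X h1 h2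
      have hl : (Real.log X : ℂ) ≠ 0 := by exact_mod_cast (Real.log_pos h2).ne'
      field_simp
  tfae_have 1 → 4 := fun h c hc => (hiff c hc).1 h
  tfae_have 4 → 3 := fun h => ⟨Real.pi, by linarith, h Real.pi (by linarith)⟩
  tfae_have 3 → 1 := fun ⟨c, hc, h⟩ => (hiff c hc).2 h
  tfae_have 1 → 2 := by
    rintro ⟨h1, h2⟩
    have h3 : m = r := by
      rw [hm] at h1
      exact_mod_cast h1
    subst h3
    rw [h2] at hlead
    have h4 := hZc.mul hlead
    have h5 : ((tors a b ^ 2 / regulator g : ℝ) : ℂ) * B = A := by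
      rw [hB, ← Complex.ofReal_mul]
      congr 1
      field_simp
    rw [h5] at h4
    refine h4.congr' ?_
    filter_upwards [self_mem_nhdsWithin] with s hs
    have hs0 : (s : ℂ) ≠ 0 := by
      have : (0 : ℝ) < s := hs
      exact_mod_cast this.ne'
    field_simp
  tfae_have 2 → 1 := by
    intro h
    have h4 := h.div hZc hZlim0
    have h5 : (A : ℂ) / ((tors a b ^ 2 / regulator g : ℝ) : ℂ) = B := by
      rw [hB, ← Complex.ofReal_div]
      congr 1
      field_simp
    rw [h5] at h4
    have h6 : Tendsto (fun s : ℝ => F (1 + s) / (s : ℂ) ^ r) (𝓝[>] 0) (𝓝 B) := by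
      refine h4.congr' ?_
      have hev : ∀ᶠ s : ℝ in 𝓝[>] 0, (heightZeta a b (Real.pi * s) : ℂ) ^ 2 * (s : ℂ) ^ r ≠ 0 :=
        hZc.eventually_ne hZlim0
      filter_upwards [hev] with s hs
      have h7 := (pow_ne_zero_iff two_ne_zero).1 (left_ne_zero_of_mul hs)
      have h8 := right_ne_zero_of_mul hs
      simp only [Pi.div_apply]
      field_simp
    obtain ⟨h7, h8⟩ := TH942.pow_unique' hlead h6 hlead0 hB0
    subst h7
    exact ⟨hm, h8⟩
  tfae_finish

end Pool.Agent.Results.MP_92892c_nt.HeightZeta
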